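import Pool.Agent.Helper58.R3.Stmts

/-! Module CS of the project on 3-connected triangle-free graphs of minimum degree three:
the separator argument. -/

set_option autoImplicit false
open Classical

namespace Pool.Agent.Helper58.R3

/-- `S` separates `B` from `D'` outside `Z` and `v0` -/
def cs_Sep {m : ℕ} (H : SimpleGraph (Fin m)) (v0 : Fin m) (Z D' B S : Finset (Fin m)) : Prop :=
  (∀ u ∈ S, u ∉ Z ∧ u ≠ v0) ∧ S.card = 2 ∧ ∃ U : Finset (Fin m),
    (∀ u ∈ U, u ∉ Z ∧ u ≠ v0 ∧ u ∉ S) ∧ (∀ b ∈ B, b ∉ S → b ∈ U) ∧ (∀ u ∈ U, u ∉ D') ∧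
    ∀ u ∈ U, ∀ u', u' ∉ Z → u' ≠ v0 → u' ∉ S → H.Adj u u' → u' ∈ U

/-- the preimage of a separator -/
noncomputable def cs_pre {m : ℕ} (ψ : Fin m → Fin m) (S : Finset (Fin m)) : Finset (Fin m) :=
  Finset.univ.filter (fun u => ψ u ∈ S)

theorem cs_step {m : ℕ} (H : SimpleGraph (Fin m)) (v0 : Fin m) (Z D' B : Finset (Fin m))
    (ψ : Fin m → Fin m) (k3 : K3 H) (we : WE H v0 Z ψ) (ha : ψ v0 ∈ Z)
    (hD : ∀ u, u ∉ Z → u ≠ v0 → ∀ z ∈ Z, H.Adj u z → u ∈ D')
    (hDB : ∀ d ∈ D', ψ d ∈ B)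
    (hB : ∀ b ∈ B, b ∉ Z ∧ b ≠ v0 ∧ H.Adj b v0) (hB2 : B.card = 2)
    (S : Finset (Fin m)) (hS : cs_Sep H v0 Z D' B S) :
    cs_Sep H v0 Z D' B (cs_pre ψ S) ∧ (cs_pre ψ S).image ψ = S := by
  obtain ⟨hSW, hS2, U, hUW, hUB, hUD, hUc⟩ := hS
  have hS'W : ∀ u ∈ cs_pre ψ S, u ∉ Z ∧ u ≠ v0 := by
    intro u hu
    rw [cs_pre, Finset.mem_filter] at hu
    obtain ⟨h1, h2⟩ := hSW _ hu.2
    refine ⟨fun hz => h2 (we.zv u hz), fun h => h1 ?_⟩
    rw [h]
    exact ha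
  have hinj : Set.InjOn ψ (cs_pre ψ S : Set (Fin m)) := by
    intro x hx y hy hxy
    exact we.inj x y (hS'W x hx).1 (hS'W y hy).1 hxy
  have himg : (cs_pre ψ S).image ψ ⊆ S := by
    intro w hw
    rw [Finset.mem_image] at hw
    obtain ⟨u, hu, rfl⟩ := hw
    rw [cs_pre, Finset.mem_filter] at hu
    exact hu.2
  have hcard : ((cs_pre ψ S).image ψ).card = (cs_pre ψ S).card := Finset.card_image_of_injOn hinj
  have hle : (cs_pre ψ S).card ≤ 2 := by
    rw [← hcard, ← hS2]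
    exact Finset.card_le_card himg
  have hbU : ∀ b ∈ B, ψ b ∉ U := by
    intro b hb hu
    obtain ⟨h1, h2, h3⟩ := hB b hb
    have h4 : H.Adj (ψ b) (ψ v0) := we.hom b v0 h3 (fun h => h1 h.1)
    exact hUD _ hu (hD _ (hUW _ hu).1 (hUW _ hu).2.1 _ ha h4)
  set U' : Finset (Fin m) := Finset.univ.filter
    (fun u => u ∉ Z ∧ u ≠ v0 ∧ u ∉ cs_pre ψ S ∧ ψ u ∉ U) with hU'
  have mU' : ∀ u, u ∈ U' ↔ u ∉ Z ∧ u ≠ v0 ∧ u ∉ cs_pre ψ S ∧ ψ u ∉ U := by
    intro u
    rw [hU', Finset.mem_filter]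
    simp
  have mS' : ∀ u, u ∈ cs_pre ψ S ↔ ψ u ∈ S := by
    intro u
    rw [cs_pre, Finset.mem_filter]
    simp
  have c1 : ∀ u ∈ U', u ∉ Z ∧ u ≠ v0 ∧ u ∉ cs_pre ψ S := by
    intro u hu
    rw [mU'] at hu
    exact ⟨hu.1, hu.2.1, hu.2.2.1⟩
  have c2 : ∀ b ∈ B, b ∉ cs_pre ψ S → b ∈ U' := by
    intro b hb hbS
    rw [mU']
    exact ⟨(hB b hb).1, (hB b hb).2.1, hbS, hbU b hb⟩
  have c3 : ∀ u ∈ U', u ∉ D' := by
    intro u hu hd
    rw [mU'] at hu
    obtain ⟨_, _, h3, h4⟩ := hu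
    rw [mS'] at h3
    exact h4 (hUB _ (hDB u hd) h3)
  have c4 : ∀ u ∈ U', ∀ u', u' ∉ Z → u' ≠ v0 → u' ∉ cs_pre ψ S → H.Adj u u' → u' ∈ U' := by
    intro u hu u' h1 h2 h3 hadj
    rw [mU'] at hu ⊢
    obtain ⟨g1, g2, g3, g4⟩ := hu
    refine ⟨h1, h2, h3, fun hU0 => ?_⟩
    have hadj' : H.Adj (ψ u) (ψ u') := we.hom u u' hadj (fun h => g1 h.1)
    rw [mS'] at g3
    by_cases hz : ψ u ∈ Z
    · exact hUD _ hU0 (hD _ (hUW _ hU0).1 (hUW _ hU0).2.1 _ hz hadj'.symm)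
    · exact g4 (hUc _ hU0 _ hz (we.nv u g1) g3 hadj'.symm)
  have hge : 2 ≤ (cs_pre ψ S).card := by
    by_contra hlt
    have hne : U'.Nonempty := by
      have : ∃ b ∈ B, b ∉ cs_pre ψ S := by
        by_contra hcon
        push Not at hcon
        have := Finset.card_le_card (fun b hb => hcon b hb : B ⊆ cs_pre ψ S)
        omega
      obtain ⟨b, hb, hbS⟩ := this
      exact ⟨b, c2 b hb hbS⟩
    have hnb : nb H U' ⊆ insert v0 (cs_pre ψ S) := by
      intro v hv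
      rw [nb, Finset.mem_filter] at hv
      obtain ⟨_, hvU, u, hu, hadj⟩ := hv
      rw [Finset.mem_insert]
      by_cases h0 : v = v0
      · exact Or.inl h0
      right
      have hvZ : v ∉ Z := by
        intro hz
        exact c3 u hu (hD u (c1 u hu).1 (c1 u hu).2.1 v hz hadj)
      by_contra hvS
      exact hvU (c4 u hu v hvZ h0 hvS hadj)
    have hcard2 : (nb H U').card ≤ 2 := by
      have h1 := Finset.card_le_card hnb
      have h2 := Finset.card_insert_le v0 (cs_pre ψ S)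
      omega
    rcases k3 U' hne hcard2 (ψ v0) with h | h
    · exact (c1 _ h).1 ha
    · have h5 := hnb h
      rw [Finset.mem_insert] at h5
      rcases h5 with h5 | h5
      · rw [h5] at ha
        exact we.v0Z ha
      · exact (hS'W _ h5).1 ha
  have hc2 : (cs_pre ψ S).card = 2 := le_antisymm hle hge
  refine ⟨⟨hS'W, hc2, U', c1, c2, c3, c4⟩, ?_⟩
  exact Finset.eq_of_subset_of_card_le himg (by rw [hcard, hc2, hS2])

theorem st_CS : ST_CS := by
  intro m H v0 Z ψ hs hv0 hz d hd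
  have k3 := hs.k3
  have we := hs.we
  have ha : ψ v0 ∈ Z := by
    have := hs.kl.1
    simpa using this
  have mD : ∀ u, u ∈ nb H Z ↔ u ∉ Z ∧ ∃ y ∈ Z, H.Adj y u := by
    intro u
    rw [nb, Finset.mem_filter]
    simp
  have mN : ∀ u, u ∈ N H v0 ↔ H.Adj v0 u := by
    intro u
    rw [N, Finset.mem_filter]
    simp
  have hav : H.Adj v0 (ψ v0) := by
    obtain ⟨_, y, hy, hadj⟩ := (mD v0).mp hv0
    have := hz y hy hadj.symm
    rw [← this]
    exact hadj.symm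
  have hmap : (nb H Z).image ψ = N H v0 := by
    apply Finset.eq_of_subset_of_card_le
    · intro w hw
      rw [Finset.mem_image] at hw
      obtain ⟨u, hu, rfl⟩ := hw
      obtain ⟨h1, y, hy, hadj⟩ := (mD u).mp hu
      rw [mN]
      have := we.hom y u hadj (fun h => h1 h.2)
      rw [we.zv y hy] at this
      exact this
    · rw [hs.deg, Finset.card_image_of_injOn, hs.D3]
      intro x hx y hy hxy
      exact we.inj x y ((mD x).mp hx).1 ((mD y).mp hy).1 hxy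
  set D' := (nb H Z).erase v0 with hD'
  set B := (N H v0).erase (ψ v0) with hB'
  have hD2 : D'.card = 2 := by
    rw [hD', Finset.card_erase_of_mem hv0, hs.D3]
  have hB2 : B.card = 2 := by
    rw [hB', Finset.card_erase_of_mem ((mN _).mpr hav), hs.deg]
  have hD : ∀ u, u ∉ Z → u ≠ v0 → ∀ z ∈ Z, H.Adj u z → u ∈ D' := by
    intro u h1 h2 z hz' hadj
    rw [hD', Finset.mem_erase]
    exact ⟨h2, (mD u).mpr ⟨h1, z, hz', hadj.symm⟩⟩
  have hDB : ∀ d ∈ D', ψ d ∈ B := by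
    intro d hd
    rw [hD', Finset.mem_erase] at hd
    rw [hB', Finset.mem_erase]
    refine ⟨fun h => hd.1 (we.inj d v0 ((mD d).mp hd.2).1 we.v0Z h), ?_⟩
    rw [← hmap]
    exact Finset.mem_image_of_mem ψ hd.2
  have hB : ∀ b ∈ B, b ∉ Z ∧ b ≠ v0 ∧ H.Adj b v0 := by
    intro b hb
    rw [hB', Finset.mem_erase, mN] at hb
    refine ⟨fun h => hb.1 (hz b h hb.2), fun h => ?_, hb.2.symm⟩
    rw [h] at hb
    exact H.loopless.irrefl _ hb.2
  have hstep := cs_step H v0 Z D' B ψ k3 we ha hD hDB hB hB2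
  set T : Finset (Finset (Fin m)) := Finset.univ.filter (fun S => cs_Sep H v0 Z D' B S) with hT
  have hBT : B ∈ T := by
    rw [hT, Finset.mem_filter]
    refine ⟨Finset.mem_univ _, fun u hu => ⟨(hB u hu).1, (hB u hu).2.1⟩, hB2, ∅, ?_, ?_, ?_, ?_⟩
    · intro u hu
      simp at hu
    · intro b hb hb'
      exact absurd hb hb'
    · intro u hu
      simp at hu
    · intro u hu
      simp at hu
  have hmaps : ∀ S ∈ T, cs_pre ψ S ∈ T := by
    intro S hS
    rw [hT, Finset.mem_filter] at hS ⊢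
    exact ⟨Finset.mem_univ _, (hstep S hS.2).1⟩
  have hinj : Set.InjOn (cs_pre ψ) (T : Set (Finset (Fin m))) := by
    intro S hS S' hS' h
    have h1 : S ∈ T := hS
    have h2 : S' ∈ T := hS'
    rw [hT, Finset.mem_filter] at h1 h2
    rw [← (hstep S h1.2).2, ← (hstep S' h2.2).2, h]
  have hsurj : T.image (cs_pre ψ) = T := by
    apply Finset.eq_of_subset_of_card_le
    · intro S hS
      rw [Finset.mem_image] at hS
      obtain ⟨S', hS', rfl⟩ := hS
      exact hmaps S' hS'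
    · rw [Finset.card_image_of_injOn hinj]
  rw [← hsurj, Finset.mem_image] at hBT
  obtain ⟨S, hST, hSB⟩ := hBT
  rw [hT, Finset.mem_filter] at hST
  have himg := (hstep S hST.2).2
  rw [hSB] at himg
  have hBD : B.image ψ ⊆ D' := by
    intro w hw
    rw [Finset.mem_image] at hw
    obtain ⟨b, hb, rfl⟩ := hw
    have hw2 : ψ b ∈ S := by
      rw [← himg]
      exact Finset.mem_image_of_mem ψ hb
    have h1 := hST.2.1 _ hw2
    have h2 := hB b hb
    exact hD _ h1.1 h1.2 _ ha (we.hom b v0 h2.2.2 (fun h => h2.1 h.1))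
  have hBD2 : B.image ψ = D' := by
    apply Finset.eq_of_subset_of_card_le hBD
    rw [hD2, himg]
    exact hST.2.2.1.ge
  by_cases h0 : d = v0
  · rw [h0]
    exact hav.symm
  · have hd' : d ∈ D' := by
      rw [hD', Finset.mem_erase]
      exact ⟨h0, hd⟩
    rw [← hBD2, Finset.mem_image] at hd'
    obtain ⟨b, hb, rfl⟩ := hd'
    have h2 := hB b hb
    exact (we.hom b v0 h2.2.2 (fun h => h2.1 h.1)).symm

end Pool.Agent.Helper58.R3
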